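import Mathlib

/-!
The most-pivotal-site algorithm for a Boolean function, and the exchange principle.
-/

namespace Pool.Agent.Helper70.MPS

open Classical

section Abstract

variable {V : Type} [Fintype V] [DecidableEq V]

/-- Site `i` is pivotal for `f` at `ω`: changing the state of `i` alone changes the value. -/
def Pivotal (f : (V → Bool) → Prop) (i : V) (ω : V → Bool) : Prop :=
  ¬ (f (Function.update ω i (!(ω i))) ↔ f ω)

/-- `ω` agrees with the revealed information `h`, a list of pairs (site, state). -/
def Agrees (h : List (V × Bool)) (ω : V → Bool) : Prop := ∀ p ∈ h, ω p.1 = p.2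

/-- The conditional probability, given the revealed information `h`, that `i` is pivotal
for `f` at a uniformly random configuration. -/
noncomputable def condPivotal (f : (V → Bool) → Prop) (h : List (V × Bool)) (i : V) : ℝ :=
  (Nat.card {ω : V → Bool // Agrees h ω ∧ Pivotal f i ω} : ℝ) /
    (Nat.card {ω : V → Bool // Agrees h ω} : ℝ)

/-- The revealed information determines the value of `f`. -/
def Determined (f : (V → Bool) → Prop) (h : List (V × Bool)) : Prop :=
  ∀ ω ω' : V → Bool, Agrees h ω → Agrees h ω' → (f ω ↔ f ω')

/-- A most-pivotal-site algorithm for `f`: the first site is drawn from `init`; later, given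
the history `h` of sites and states (in the order of the queries), the next site is drawn
from `next h`; if `h` does not determine `f`, this is an unqueried site maximising the
conditional probability of being pivotal. -/
structure MostPivotal (f : (V → Bool) → Prop) where
  init : PMF V
  next : List (V × Bool) → PMF V
  next_spec : ∀ h : List (V × Bool), h ≠ [] → ¬ Determined f h → ∀ j ∈ (next h).support,
    j ∉ h.map Prod.fst ∧
      ∀ i : V, i ∉ h.map Prod.fst → condPivotal f h i ≤ condPivotal f h j

/-- The law of the history after at most `t + 1` queries, the configuration being `ω`; the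
algorithm stops as soon as `f` is determined. -/
noncomputable def law {f : (V → Bool) → Prop} (A : MostPivotal f) (ω : V → Bool) :
    ℕ → PMF (List (V × Bool))
  | 0 => A.init.bind fun j => PMF.pure [(j, ω j)]
  | t + 1 => (law A ω t).bind fun h =>
      if Determined f h then PMF.pure h
      else (A.next h).bind fun j => PMF.pure (h ++ [(j, ω j)])

/-- The expected number of queries, over a uniformly random configuration and the
randomness of the algorithm. -/
noncomputable def expectedQueries {f : (V → Bool) → Prop} (A : MostPivotal f) : ENNReal :=
  (∑ ω : V → Bool, ⨆ t : ℕ, ∑' h : List (V × Bool), law A ω t h * (h.length : ENNReal)) /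
    (Fintype.card (V → Bool) : ENNReal)

/-- `f` is increasing. -/
def Increasing (f : (V → Bool) → Prop) : Prop :=
  ∀ ω ω' : V → Bool, (∀ i, ω i = true → ω' i = true) → f ω → f ω'

theorem Increasing.set {f : (V → Bool) → Prop} (hf : Increasing f) (b : Bool) (ω : V → Bool)
    (x : V) (h : decide (f ω) = b) : decide (f (Function.update ω x b)) = b := by
  cases b
  · have h1 : ¬ f ω := by simpa using h
    have : ¬ f (Function.update ω x false) := by
      intro h2
      apply h1
      refine hf _ _ ?_ h2
      intro i hi
      by_cases hx : i = x
      · subst hx; simp at hi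
      · simpa [Function.update_of_ne hx] using hi
    simpa using this
  · have h1 : f ω := by simpa using h
    have : f (Function.update ω x true) := by
      refine hf _ _ ?_ h1
      intro i hi
      by_cases hx : i = x
      · subst hx; simp
      · simpa [Function.update_of_ne hx] using hi
    simpa using this

theorem Increasing.pivotal {f : (V → Bool) → Prop} (hf : Increasing f) (b : Bool) (ω : V → Bool)
    (x : V) : Pivotal f x ω ↔
      decide (f (Function.update ω x b)) = b ∧ decide (f (Function.update ω x (!b))) = !b := by
  unfold Pivotal
  have e1 : Function.update ω x (ω x) = ω := Function.update_eq_self x ω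
  have key : ∀ c : Bool, (¬ (f (Function.update ω x (!(ω x))) ↔ f ω)) ↔
      ¬ (f (Function.update ω x c) ↔ f (Function.update ω x (!c))) := by
    intro c
    by_cases hc : ω x = c
    · subst hc
      rw [e1]
      tauto
    · have hc' : (!(ω x)) = c := by
        cases h : ω x <;> cases c <;> simp_all
      have hc'' : (!c) = ω x := by
        rw [← hc']; simp
      rw [hc', hc'', e1]
  rw [key b]
  have m1 := hf.set b (Function.update ω x (!b)) x
  rw [Function.update_idem] at m1
  have m2 := hf.set (!b) (Function.update ω x b) x
  rw [Function.update_idem] at m2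
  cases b
  · simp only [Bool.not_false, decide_eq_false_iff_not, decide_eq_true_eq] at *
    tauto
  · simp only [Bool.not_true, decide_eq_false_iff_not, decide_eq_true_eq] at *
    tauto

theorem not_pivotal_eq {f : (V → Bool) → Prop} {x : V} {ω : V → Bool}
    (h : ¬ Pivotal f x ω) (c : Bool) : f (Function.update ω x c) ↔ f ω := by
  unfold Pivotal at h
  rw [not_not] at h
  by_cases hc : ω x = c
  · subst hc; rw [Function.update_eq_self]
  · have hc' : (!(ω x)) = c := by
      cases h : ω x <;> cases c <;> simp_all
    rw [← hc']
    have : (f (Function.update ω x (!(ω x))) ↔ f ω) := by tauto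
    exact this

theorem pivotal_update {f : (V → Bool) → Prop} (hf : Increasing f) {x : V} {ω : V → Bool}
    (c : Bool) : Pivotal f x (Function.update ω x c) ↔ Pivotal f x ω := by
  rw [hf.pivotal true, hf.pivotal true]
  simp [Function.update_idem]

theorem agrees_update {h : List (V × Bool)} {ω : V → Bool} {x : V} (c : Bool)
    (hx : x ∉ h.map Prod.fst) (hω : Agrees h ω) : Agrees h (Function.update ω x c) := by
  intro p hp
  have : p.1 ≠ x := by
    rintro rfl
    exact hx (List.mem_map_of_mem hp)
  rw [Function.update_of_ne this]
  exact hω p hp

theorem condPivotal_le_iff {f : (V → Bool) → Prop} {h : List (V × Bool)} {i j : V}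
    (hne : ∃ ω, Agrees h ω) :
    condPivotal f h i ≤ condPivotal f h j ↔
      (Finset.univ.filter fun ω : V → Bool => Agrees h ω ∧ Pivotal f i ω).card ≤
        (Finset.univ.filter fun ω : V → Bool => Agrees h ω ∧ Pivotal f j ω).card := by
  unfold condPivotal
  obtain ⟨ω, hω⟩ := hne
  have hpos : (0 : ℝ) < (Nat.card {ω : V → Bool // Agrees h ω} : ℝ) := by
    have : 0 < Nat.card {ω : V → Bool // Agrees h ω} := by
      have : Nonempty {ω : V → Bool // Agrees h ω} := ⟨⟨ω, hω⟩⟩
      exact Nat.card_pos
    exact_mod_cast this
  rw [div_le_div_iff_of_pos_right hpos]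
  rw [Nat.cast_le, Nat.card_eq_fintype_card, Nat.card_eq_fintype_card,
    Fintype.card_subtype, Fintype.card_subtype]

/-- Exchange principle: if setting `x` to `b` makes `j` irrelevant and `j` is at least as
influential as `x`, then setting `j` to `b` makes `x` irrelevant. -/
theorem exchange {f : (V → Bool) → Prop} (hf : Increasing f) {h : List (V × Bool)} {j x : V}
    (b : Bool) (hjx : j ≠ x) (hj : j ∉ h.map Prod.fst) (hx : x ∉ h.map Prod.fst)
    (hkill : ∀ ω, Agrees h ω → ω x = b → ¬ Pivotal f j ω)
    (hle : condPivotal f h x ≤ condPivotal f h j) :
    ∀ ω, Agrees h ω → ω j = b → ¬ Pivotal f x ω := by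
  intro ω₀ hω₀ hω₀j hpiv
  rw [condPivotal_le_iff ⟨ω₀, hω₀⟩] at hle
  set Px := Finset.univ.filter fun ω : V → Bool => Agrees h ω ∧ Pivotal f x ω with hPx
  set Pj := Finset.univ.filter fun ω : V → Bool => Agrees h ω ∧ Pivotal f j ω with hPj
  -- configurations in Pj have x = !b
  have hxb : ∀ ω ∈ Pj, ω x = !b := by
    intro ω hω
    rw [hPj, Finset.mem_filter] at hω
    by_contra hne
    have : ω x = b := by
      cases h1 : ω x <;> cases b <;> simp_all
    exact hkill ω hω.2.1 this hω.2.2
  -- the map
  let φ : (V → Bool) → (V → Bool) := fun ω =>
    if ω j = b then Function.update (Function.update ω j (!b)) x b else ω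
  have hφj : ∀ ω, φ ω j = !b := by
    intro ω
    by_cases h1 : ω j = b
    · simp only [φ, h1, if_true]
      rw [Function.update_of_ne hjx]
      simp
    · simp only [φ, h1, if_false]
      cases h2 : ω j <;> cases b <;> simp_all
  have hpivx : ∀ ω, Agrees h ω → Pivotal f j ω → ω j = (!b) → Pivotal f x ω := by
    intro ω hω hp hjb
    have hxω : ω x = !b := hxb ω (by rw [hPj, Finset.mem_filter]; exact ⟨Finset.mem_univ _, hω, hp⟩)
    have hp' := (hf.pivotal b ω j).1 hp
    rw [hf.pivotal b]
    have e1 : Function.update ω j (!b) = ω := by rw [← hjb]; exact Function.update_eq_self j ω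
    have e2 : Function.update ω x (!b) = ω := by rw [← hxω]; exact Function.update_eq_self x ω
    rw [e1] at hp'
    rw [e2]
    refine ⟨?_, hp'.2⟩
    -- θ = ω[x:=b]
    have hθ : Agrees h (Function.update ω x b) := agrees_update b hx hω
    have hnp := hkill _ hθ (by simp)
    have h3 := not_pivotal_eq hnp b
    have h4 : decide (f (Function.update (Function.update ω x b) j b)) = b := by
      rw [Function.update_comm hjx.symm]
      exact hf.set b _ x hp'.1
    have h5 : decide (f (Function.update ω x b)) =
        decide (f (Function.update (Function.update ω x b) j b)) := by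
      rw [decide_eq_decide]
      exact h3.symm
    rw [h5]
    exact h4
  have hφP : ∀ ω ∈ Pj, φ ω ∈ Px := by
    intro ω hω
    have hω' := hω
    rw [hPj, Finset.mem_filter] at hω
    rw [hPx, Finset.mem_filter]
    refine ⟨Finset.mem_univ _, ?_⟩
    by_cases h1 : ω j = b
    · simp only [φ, h1, if_true]
      have ha : Agrees h (Function.update ω j (!b)) := agrees_update _ hj hω.2.1
      refine ⟨agrees_update _ hx ha, ?_⟩
      rw [pivotal_update hf]
      exact hpivx _ ha ((pivotal_update hf _).2 hω.2.2) (by simp)
    · simp only [φ, h1, if_false]
      refine ⟨hω.2.1, hpivx _ hω.2.1 hω.2.2 ?_⟩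
      cases h2 : ω j <;> cases b <;> simp_all
  have hinj : ∀ ω ∈ Pj, ∀ ω' ∈ Pj, φ ω = φ ω' → ω = ω' := by
    intro ω hω ω' hω' he
    have h1 := hxb ω hω
    have h2 := hxb ω' hω'
    have hbb : b ≠ !b := by cases b <;> simp
    by_cases ha : ω j = b <;> by_cases ha' : ω' j = b
    · simp only [φ, ha, ha', if_true] at he
      funext i
      have hi := congrFun he i
      by_cases hix : i = x
      · subst hix; rw [h1, h2]
      · by_cases hij : i = j
        · subst hij; rw [ha, ha']
        · simpa [Function.update_of_ne hix, Function.update_of_ne hij] using hi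
    · exfalso
      simp only [φ, ha, ha', if_true, if_false] at he
      have hi := congrFun he x
      simp at hi
      rw [h2] at hi
      exact hbb hi
    · exfalso
      simp only [φ, ha, ha', if_true, if_false] at he
      have hi := congrFun he x
      simp at hi
      rw [h1] at hi
      exact hbb hi.symm
    · simp only [φ, ha, ha', if_false] at he
      exact he
  -- strict inequality
  have hω₀P : ω₀ ∈ Px := by
    rw [hPx, Finset.mem_filter]; exact ⟨Finset.mem_univ _, hω₀, hpiv⟩
  have hss : (Pj.image φ) ⊆ Px.erase ω₀ := by
    intro y hy
    rw [Finset.mem_image] at hy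
    obtain ⟨ω, hω, rfl⟩ := hy
    rw [Finset.mem_erase]
    refine ⟨?_, hφP ω hω⟩
    intro he
    have := hφj ω
    rw [he, hω₀j] at this
    cases b <;> simp at this
  have hcard := Finset.card_le_card hss
  rw [Finset.card_image_of_injOn (fun ω hω ω' hω' => hinj ω hω ω' hω')] at hcard
  rw [Finset.card_erase_of_mem hω₀P] at hcard
  have : 0 < Px.card := Finset.card_pos.2 ⟨_, hω₀P⟩
  omega

/-- If `f` is not determined, some unqueried site is pivotal at some agreeing configuration. -/
theorem exists_pivotal {f : (V → Bool) → Prop} {h : List (V × Bool)} (hd : ¬ Determined f h) :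
    ∃ i, i ∉ h.map Prod.fst ∧ ∃ ω, Agrees h ω ∧ Pivotal f i ω := by
  by_contra hcon
  push Not at hcon
  apply hd
  intro ω ω' hω hω'
  have key : ∀ S : Finset V, (f (fun i => if i ∈ S then ω' i else ω i) ↔ f ω) ∧
      Agrees h (fun i => if i ∈ S then ω' i else ω i) := by
    intro S
    induction S using Finset.induction_on with
    | empty => simpa using hω
    | insert a S ha ih =>
      have e : (fun i => if i ∈ insert a S then ω' i else ω i) =
          Function.update (fun i => if i ∈ S then ω' i else ω i) a (ω' a) := by
        funext i
        by_cases hi : i = a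
        · subst hi; simp
        · simp [hi]
      have hA : Agrees h (fun i => if i ∈ insert a S then ω' i else ω i) := by
        intro p hp
        by_cases hi : p.1 ∈ insert a S
        · simp only [hi, if_true]; exact hω' p hp
        · simp only [hi, if_false]; exact hω p hp
      refine ⟨?_, hA⟩
      by_cases hq : a ∈ h.map Prod.fst
      · have : ω' a = ω a := by
          rw [List.mem_map] at hq
          obtain ⟨p, hp, rfl⟩ := hq
          rw [hω p hp, hω' p hp]
        have e2 : Function.update (fun i => if i ∈ S then ω' i else ω i) a (ω' a) =
            (fun i => if i ∈ S then ω' i else ω i) := by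
          rw [this]
          have : (fun i => if i ∈ S then ω' i else ω i) a = ω a := by simp [ha]
          rw [← this]
          exact Function.update_eq_self _ _
        rw [e, e2]
        exact ih.1
      · rw [e, not_pivotal_eq (hcon a hq _ ih.2)]
        exact ih.1
  have := (key Finset.univ).1
  simp only [Finset.mem_univ, if_true] at this
  exact this.symm

end Abstract

end Pool.Agent.Helper70.MPS
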