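import Pool.Agent.Helper70.MPS.Perc

/-!
Counting: the expected number of queries.
-/

namespace Pool.Agent.Helper70.MPS

open Classical

theorem card_pattern {T V : Type} [Fintype T] [Fintype V] (φ : T → V)
    (hφ : Function.Injective φ) (P : (T → Bool) → Prop) :
    Nat.card {ω : V → Bool // P (fun t => ω (φ t))} * 2 ^ Fintype.card T =
      Nat.card {g : T → Bool // P g} * 2 ^ Fintype.card V := by
  let C := {x : V // x ∉ Set.range φ}
  let e0 : T ⊕ C ≃ V :=
    (Equiv.sumCongr (Equiv.ofInjective φ hφ) (Equiv.refl C)).trans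
      (Equiv.sumCompl (fun x : V => x ∈ Set.range φ))
  have he0 : ∀ t, e0 (Sum.inl t) = φ t := by
    intro t
    rfl
  let e1 : (V → Bool) ≃ (T → Bool) × (C → Bool) :=
    (Equiv.arrowCongr e0.symm (Equiv.refl Bool)).trans (Equiv.sumArrowEquivProdArrow T C Bool)
  have he1 : ∀ ω : V → Bool, (e1 ω).1 = fun t => ω (φ t) := by
    intro ω
    funext t
    change ω (e0 (Sum.inl t)) = ω (φ t)
    rw [he0]
  let e2 : {ω : V → Bool // P (fun t => ω (φ t))} ≃
      {x : (T → Bool) × (C → Bool) // P x.1} :=
    Equiv.subtypeEquiv e1 (by intro ω; rw [he1])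
  let e3 : {x : (T → Bool) × (C → Bool) // P x.1} ≃ {g : T → Bool // P g} × (C → Bool) :=
    { toFun := fun x => (⟨x.1.1, x.2⟩, x.1.2)
      invFun := fun y => ⟨(y.1.1, y.2), y.1.2⟩
      left_inv := fun x => rfl
      right_inv := fun y => rfl }
  have h1 : Nat.card {ω : V → Bool // P (fun t => ω (φ t))} =
      Nat.card {g : T → Bool // P g} * 2 ^ Fintype.card C := by
    rw [Nat.card_congr (e2.trans e3), Nat.card_prod]
    congr 1
    rw [Nat.card_eq_fintype_card, Fintype.card_fun, Fintype.card_bool]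
  have h2 : Fintype.card T + Fintype.card C = Fintype.card V := by
    rw [← Fintype.card_sum]
    exact Fintype.card_congr e0
  rw [h1, ← h2, pow_add]
  ring

theorem card_pat : 36 ≤ Nat.card {g : Option (Fin 6 ⊕ Fin 6) → Bool // Pat g} := by
  have h18 : Fintype.card {e : Fin 6 → Bool // ∀ k, e k = true ∨ e (k + 5) = true} = 18 := by
    decide +kernel
  have h36 : Nat.card (Bool × {e : Fin 6 → Bool // ∀ k, e k = true ∨ e (k + 5) = true}) = 36 := by
    rw [Nat.card_prod, Nat.card_eq_fintype_card, Nat.card_eq_fintype_card, h18,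
      Fintype.card_bool]
  rw [← h36]
  let F : Bool × {e : Fin 6 → Bool // ∀ k, e k = true ∨ e (k + 5) = true} →
      {g : Option (Fin 6 ⊕ Fin 6) → Bool // Pat g} := fun x =>
    ⟨fun t => match t with
      | none => x.1
      | some (Sum.inl _) => x.1
      | some (Sum.inr k) => cond (x.2.1 k) x.1 (!x.1), by
      refine ⟨x.1, rfl, fun _ => rfl, fun k => ?_⟩
      rcases x.2.2 k with h | h
      · left; simp [h]
      · right; simp [h]⟩
  refine Nat.card_le_card_of_injective F ?_
  rintro ⟨b, e⟩ ⟨b', e'⟩ h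
  have h' := congrArg Subtype.val h
  have hb : b = b' := congrFun h' none
  subst hb
  have he : e = e' := by
    apply Subtype.ext
    funext k
    have hk : cond (e.1 k) b (!b) = cond (e'.1 k) b (!b) := congrFun h' (some (Sum.inr k))
    cases h1 : e.1 k <;> cases h2 : e'.1 k <;> cases b <;> simp_all
  rw [he]

variable {D : Finset (ℤ × ℤ)} {L R : Set (ℤ × ℤ)}

/-- The state of a site of the lattice (closed outside `D`). -/
noncomputable def ext (ω : {x // x ∈ D} → Bool) (x : ℤ × ℤ) : Bool :=
  if h : x ∈ D then ω ⟨x, h⟩ else false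

theorem ext_site {v : ℤ × ℤ} (hv : Inner D L R v) (ω : {x // x ∈ D} → Bool)
    (t : Option (Fin 6 ⊕ Fin 6)) : ext ω (site v t) = ω (hv.site t) := by
  unfold ext
  have h : site v t ∈ D := (hv.site t).2
  rw [dif_pos h]
  rfl

/-- The inner sites. -/
noncomputable def innerSites (D : Finset (ℤ × ℤ)) (L R : Set (ℤ × ℤ)) : Finset (ℤ × ℤ) :=
  D.filter fun v => Inner D L R v

/-- The inner sites at which the pattern occurs. -/
noncomputable def goodSites (D : Finset (ℤ × ℤ)) (L R : Set (ℤ × ℤ))
    (ω : {x // x ∈ D} → Bool) : Finset (ℤ × ℤ) :=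
  (innerSites D L R).filter fun v => Pat fun t => ext ω (site v t)

theorem mem_goodSites {ω : {x // x ∈ D} → Bool} {v : ℤ × ℤ} (h : v ∈ goodSites D L R ω) :
    ∃ hv : Inner D L R v, Pat fun t => ω (hv.site t) := by
  unfold goodSites innerSites at h
  rw [Finset.mem_filter, Finset.mem_filter] at h
  obtain ⟨⟨-, hv⟩, hp⟩ := h
  refine ⟨hv, ?_⟩
  have : (fun t => ext ω (site v t)) = fun t => ω (hv.site t) := by
    funext t; exact ext_site hv ω t
  rw [this] at hp
  exact hp

theorem card_goodSites {ω : {x // x ∈ D} → Bool} {h : List ({x // x ∈ D} × Bool)}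
    (hg : Good (Crossing D L R) ω h) :
    (goodSites D L R ω).card ≤ 13 * (D.card - h.length) ∧ h.length ≤ D.card := by
  set Q : Finset {x // x ∈ D} := (h.map Prod.fst).toFinset with hQ
  have hQcard : Q.card = h.length := by
    rw [hQ, List.toFinset_card_of_nodup hg.nodup, List.length_map]
  have hU : (Finset.univ \ Q).card = D.card - h.length := by
    rw [Finset.card_sdiff_of_subset (Finset.subset_univ _), hQcard, Finset.card_univ,
      Fintype.card_coe]
  refine ⟨?_, ?_⟩
  · have hch : ∀ v ∈ goodSites D L R ω, ∃ t : Option (Fin 6 ⊕ Fin 6),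
        ∃ u ∈ (Finset.univ \ Q).image Subtype.val, (u : ℤ × ℤ) = site v t := by
      intro v hv
      obtain ⟨hin, hp⟩ := mem_goodSites hv
      obtain ⟨t, ht⟩ := exists_unqueried hin hg hp
      refine ⟨t, (hin.site t).1, ?_, rfl⟩
      refine Finset.mem_image_of_mem _ ?_
      rw [Finset.mem_sdiff, hQ, List.mem_toFinset]
      exact ⟨Finset.mem_univ _, ht⟩
    choose! t u hu hut using hch
    have hcard : (goodSites D L R ω).card ≤
        ((Finset.univ : Finset (Option (Fin 6 ⊕ Fin 6))) ×ˢ
          ((Finset.univ \ Q).image Subtype.val)).card := by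
      refine Finset.card_le_card_of_injOn (fun v => (t v, u v)) ?_ ?_
      · intro v hv
        simp only [Finset.coe_product, Set.mem_prod, Finset.mem_coe, Finset.mem_univ, true_and]
        exact hu v hv
      · intro v hv v' hv' he
        simp only [Prod.mk.injEq] at he
        have h1 := hut v hv
        have h2 := hut v' hv'
        rw [he.1, he.2, h2] at h1
        have h0 : ∀ (v : ℤ × ℤ) t, site v t = v + site 0 t := by
          rintro v (_ | k | k)
          · simp [site]
          · simp [site]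
          · simp [site, add_assoc]
        rw [h0 v, h0 v'] at h1
        exact (add_right_cancel h1).symm
    rw [Finset.card_product] at hcard
    have hle : ((Finset.univ \ Q).image Subtype.val).card ≤ D.card - h.length := by
      rw [← hU]; exact Finset.card_image_le
    have h13 : (Finset.univ : Finset (Option (Fin 6 ⊕ Fin 6))).card = 13 := by simp
    rw [h13] at hcard
    exact hcard.trans (Nat.mul_le_mul_left _ hle)
  · rw [← hQcard]
    have := Finset.card_le_univ Q
    rwa [Fintype.card_coe] at this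

theorem sum_goodSites :
    (9 / 2048 : ℝ) * (innerSites D L R).card * 2 ^ D.card ≤
      ∑ ω : {x // x ∈ D} → Bool, ((goodSites D L R ω).card : ℝ) := by
  have h1 : ∑ ω : {x // x ∈ D} → Bool, ((goodSites D L R ω).card : ℝ) =
      ∑ v ∈ innerSites D L R,
        (Nat.card {ω : {x // x ∈ D} → Bool // Pat fun t => ext ω (site v t)} : ℝ) := by
    have e1 : ∀ ω : {x // x ∈ D} → Bool, ((goodSites D L R ω).card : ℝ) =
        ∑ v ∈ innerSites D L R, if (Pat fun t => ext ω (site v t)) then (1 : ℝ) else 0 := by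
      intro ω
      unfold goodSites
      rw [Finset.card_filter]
      push_cast
      rfl
    simp_rw [e1]
    rw [Finset.sum_comm]
    refine Finset.sum_congr rfl fun v _ => ?_
    rw [Nat.card_eq_fintype_card, Fintype.card_subtype, Finset.card_filter]
    push_cast
    rfl
  rw [h1]
  have h2 : ∀ v ∈ innerSites D L R, (9 / 2048 : ℝ) * 2 ^ D.card ≤
      (Nat.card {ω : {x // x ∈ D} → Bool // Pat fun t => ext ω (site v t)} : ℝ) := by
    intro v hv
    unfold innerSites at hv
    rw [Finset.mem_filter] at hv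
    have hin := hv.2
    have hinj : Function.Injective hin.site := by
      intro s t hst
      exact site_injective v (congrArg Subtype.val hst)
    have := card_pattern hin.site hinj Pat
    have he : ∀ ω : {x // x ∈ D} → Bool, (fun t => ext ω (site v t)) = fun t => ω (hin.site t) := by
      intro ω; funext t; exact ext_site hin ω t
    simp_rw [he]
    have hT : Fintype.card (Option (Fin 6 ⊕ Fin 6)) = 13 := by simp
    rw [hT, Fintype.card_coe] at this
    have h36 := card_pat
    have h3 : ((Nat.card {ω : {x // x ∈ D} → Bool // Pat fun t => ω (hin.site t)} : ℝ)) * 2 ^ 13 =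
        (Nat.card {g : Option (Fin 6 ⊕ Fin 6) → Bool // Pat g} : ℝ) * 2 ^ D.card := by
      exact_mod_cast this
    have h4 : (36 : ℝ) ≤ (Nat.card {g : Option (Fin 6 ⊕ Fin 6) → Bool // Pat g} : ℝ) := by
      exact_mod_cast h36
    have h5 : (36 : ℝ) * 2 ^ D.card ≤
        (Nat.card {g : Option (Fin 6 ⊕ Fin 6) → Bool // Pat g} : ℝ) * 2 ^ D.card :=
      mul_le_mul_of_nonneg_right h4 (by positivity)
    rw [← h3] at h5
    nlinarith
  calc (9 / 2048 : ℝ) * (innerSites D L R).card * 2 ^ D.card
      = ∑ v ∈ innerSites D L R, (9 / 2048 : ℝ) * 2 ^ D.card := by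
        rw [Finset.sum_const, nsmul_eq_mul]; ring
    _ ≤ _ := Finset.sum_le_sum h2

theorem expected_le (A : MostPivotal (Crossing D L R)) :
    expectedQueries A ≤
      ENNReal.ofReal ((D.card : ℝ) - 9 / 26624 * ((innerSites D L R).card : ℝ)) := by
  set c : ({x // x ∈ D} → Bool) → ℝ := fun ω => (D.card : ℝ) - ((goodSites D L R ω).card : ℝ) / 13
    with hc
  have hlen : ∀ ω t, ∀ h ∈ (law A ω t).support, (h.length : ℝ) ≤ c ω := by
    intro ω t h hh
    obtain ⟨-, hg⟩ := law_support A ω t h hh
    obtain ⟨h1, h2⟩ := card_goodSites hg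
    have h3 : ((goodSites D L R ω).card : ℝ) ≤ 13 * ((D.card : ℝ) - h.length) := by
      have : ((goodSites D L R ω).card : ℝ) ≤ ((13 * (D.card - h.length) : ℕ) : ℝ) := by
        exact_mod_cast h1
      rw [Nat.cast_mul, Nat.cast_sub h2] at this
      exact_mod_cast this
    rw [hc]
    linarith
  have hc0 : ∀ ω, 0 ≤ c ω := by
    intro ω
    obtain ⟨h, hh⟩ := (law A ω 0).support_nonempty
    exact (Nat.cast_nonneg _).trans (hlen ω 0 h hh)
  have hsup : ∀ ω, (⨆ t : ℕ, ∑' h : List ({x // x ∈ D} × Bool), law A ω t h * (h.length : ENNReal)) ≤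
      ENNReal.ofReal (c ω) := by
    intro ω
    refine iSup_le fun t => ?_
    calc ∑' h : List ({x // x ∈ D} × Bool), law A ω t h * (h.length : ENNReal)
        ≤ ∑' h : List ({x // x ∈ D} × Bool), law A ω t h * ENNReal.ofReal (c ω) := by
          refine ENNReal.tsum_le_tsum fun h => ?_
          by_cases hh : law A ω t h = 0
          · simp [hh]
          · refine mul_le_mul_right ?_ _
            have := hlen ω t h ((PMF.mem_support_iff _ _).2 hh)
            rw [← ENNReal.ofReal_natCast]
            exact ENNReal.ofReal_le_ofReal this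
      _ = ENNReal.ofReal (c ω) := by
          rw [ENNReal.tsum_mul_right, PMF.tsum_coe, one_mul]
  have hN : (Fintype.card ({x // x ∈ D} → Bool) : ℝ) = 2 ^ D.card := by
    rw [Fintype.card_fun, Fintype.card_bool, Fintype.card_coe]
    push_cast
    rfl
  have hNpos : (0 : ℝ) < (Fintype.card ({x // x ∈ D} → Bool) : ℝ) := by
    rw [hN]; positivity
  unfold expectedQueries
  calc (∑ ω : {x // x ∈ D} → Bool, ⨆ t : ℕ, ∑' h : List ({x // x ∈ D} × Bool),
          law A ω t h * (h.length : ENNReal)) / (Fintype.card ({x // x ∈ D} → Bool) : ENNReal)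
      ≤ (∑ ω : {x // x ∈ D} → Bool, ENNReal.ofReal (c ω)) /
          (Fintype.card ({x // x ∈ D} → Bool) : ENNReal) := by
        refine ENNReal.div_le_div_right ?_ _
        exact Finset.sum_le_sum fun ω _ => hsup ω
    _ = ENNReal.ofReal ((∑ ω : {x // x ∈ D} → Bool, c ω) /
          (Fintype.card ({x // x ∈ D} → Bool) : ℝ)) := by
        rw [← ENNReal.ofReal_sum_of_nonneg fun ω _ => hc0 ω, ENNReal.ofReal_div_of_pos hNpos,
          ENNReal.ofReal_natCast]
    _ ≤ _ := by
        apply ENNReal.ofReal_le_ofReal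
        rw [div_le_iff₀ hNpos, hN]
        have hs := sum_goodSites (D := D) (L := L) (R := R)
        have hsum : ∑ ω : {x // x ∈ D} → Bool, c ω =
            2 ^ D.card * (D.card : ℝ) -
              (∑ ω : {x // x ∈ D} → Bool, ((goodSites D L R ω).card : ℝ)) / 13 := by
          rw [hc, Finset.sum_sub_distrib, Finset.sum_const, Finset.card_univ, nsmul_eq_mul, hN,
            Finset.sum_div]
        rw [hsum]
        nlinarith

/-- The `n` by `n` box. -/
noncomputable def box (n : ℕ) : Finset (ℤ × ℤ) :=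
  Finset.Ico (0 : ℤ) n ×ˢ Finset.Ico (0 : ℤ) n

/-- The left side of the box. -/
def leftSide : Set (ℤ × ℤ) := {x | x.1 = 0}

/-- The right side of the box. -/
def rightSide (n : ℕ) : Set (ℤ × ℤ) := {x | x.1 = n - 1}

theorem box_card (n : ℕ) : (box n).card = n ^ 2 := by
  unfold box
  rw [Finset.card_product, Int.card_Ico]
  simp [sq]

theorem box_inner (n : ℕ) (hn : 4 ≤ n) :
    (n - 4) ^ 2 ≤ (innerSites (box n) leftSide (rightSide n)).card := by
  have hsub : (Finset.Ico (2 : ℤ) (n - 2)) ×ˢ (Finset.Ico (2 : ℤ) (n - 2)) ⊆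
      innerSites (box n) leftSide (rightSide n) := by
    intro v hv
    rw [Finset.mem_product, Finset.mem_Ico, Finset.mem_Ico] at hv
    obtain ⟨⟨h1, h2⟩, h3, h4⟩ := hv
    have hmem : ∀ w : ℤ × ℤ, w ∈ box n ↔ (0 ≤ w.1 ∧ w.1 < n) ∧ 0 ≤ w.2 ∧ w.2 < n := by
      intro w
      unfold box
      rw [Finset.mem_product, Finset.mem_Ico, Finset.mem_Ico]
    have hd1 : ∀ k : Fin 6, (-1 ≤ (dir k).1 ∧ (dir k).1 ≤ 1) ∧ -1 ≤ (dir k).2 ∧ (dir k).2 ≤ 1 := by
      decide
    have hd2 : ∀ k : Fin 6, (-2 ≤ (dir k).1 + (dir (k + 1)).1 ∧ (dir k).1 + (dir (k + 1)).1 ≤ 2) ∧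
        -2 ≤ (dir k).2 + (dir (k + 1)).2 ∧ (dir k).2 + (dir (k + 1)).2 ≤ 2 := by
      decide
    unfold innerSites
    rw [Finset.mem_filter]
    have hv0 : v ∈ box n := by rw [hmem]; omega
    refine ⟨hv0, ⟨hv0, ?_, ?_, ?_, ?_, ?_, ?_⟩⟩
    · intro k
      rw [hmem, Prod.fst_add, Prod.snd_add]
      have := hd1 k
      omega
    · intro k
      rw [hmem, Prod.fst_add, Prod.snd_add, Prod.fst_add, Prod.snd_add]
      have := hd2 k
      omega
    · unfold leftSide
      rw [Set.mem_setOf_eq]
      omega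
    · unfold rightSide
      rw [Set.mem_setOf_eq]
      omega
    · intro k
      unfold leftSide
      rw [Set.mem_setOf_eq, Prod.fst_add]
      have := hd1 k
      omega
    · intro k
      unfold rightSide
      rw [Set.mem_setOf_eq, Prod.fst_add]
      have := hd1 k
      omega
  have hcard := Finset.card_le_card hsub
  rw [Finset.card_product, Int.card_Ico] at hcard
  have : ((n : ℤ) - 2 - 2).toNat = n - 4 := by omega
  rw [this] at hcard
  rw [sq]
  exact hcard

theorem box_expected (n : ℕ) (hn : 4 ≤ n)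
    (A : MostPivotal (Crossing (box n) leftSide (rightSide n))) :
    expectedQueries A ≤ ENNReal.ofReal ((n : ℝ) ^ 2 - 9 / 26624 * ((n : ℝ) - 4) ^ 2) := by
  refine (expected_le A).trans (ENNReal.ofReal_le_ofReal ?_)
  have h1 := box_inner n hn
  have h2 : ((n : ℝ) - 4) ^ 2 ≤ ((innerSites (box n) leftSide (rightSide n)).card : ℝ) := by
    have : (((n - 4) ^ 2 : ℕ) : ℝ) ≤ ((innerSites (box n) leftSide (rightSide n)).card : ℝ) := by
      exact_mod_cast h1
    rw [Nat.cast_pow, Nat.cast_sub hn] at this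
    exact_mod_cast this
  rw [box_card]
  push_cast
  linarith

end Pool.Agent.Helper70.MPS
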