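import Pool.Agent.Helper70.MPS.Run

/-!
Site percolation on finite parts of the triangular lattice.
-/

namespace Pool.Agent.Helper70.MPS

open Classical

/-- The six unit vectors of the triangular lattice in cyclic order, in the basis
`1, e^(i pi / 3)`. -/
def dir : Fin 6 → ℤ × ℤ := ![(1, 0), (0, 1), (-1, 1), (-1, 0), (0, -1), (1, -1)]

/-- A step of an open path in the region `D`. -/
def OpenStep (D : Finset (ℤ × ℤ)) (ω : {x // x ∈ D} → Bool) (u v : {x // x ∈ D}) : Prop :=
  (∃ k : Fin 6, v.1 = u.1 + dir k) ∧ ω u = true ∧ ω v = true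

/-- There is an open path in `D` from a site of `L` to a site of `R`. -/
def Crossing (D : Finset (ℤ × ℤ)) (L R : Set (ℤ × ℤ)) (ω : {x // x ∈ D} → Bool) : Prop :=
  ∃ u v : {x // x ∈ D}, u.1 ∈ L ∧ v.1 ∈ R ∧ ω u = true ∧
    Relation.ReflTransGen (OpenStep D ω) u v

theorem dir_ne (k : Fin 6) : dir k ≠ 0 := by
  revert k; decide

theorem dir_opp (k : Fin 6) : dir k + dir (k + 3) = 0 := by
  revert k; decide

theorem dir_up (k : Fin 6) : dir k + dir (k + 2) = dir (k + 1) := by
  revert k; decide

theorem dir_down (k : Fin 6) : dir (k + 1) + dir (k + 5) = dir k := by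
  revert k; decide

theorem dir_inj : Function.Injective dir := by
  intro a b; revert a b; decide

theorem fin6_cases (k : Fin 6) : ∀ m : Fin 6,
    m = k ∨ m = k + 1 ∨ m = k + 2 ∨ m = k + 3 ∨ m = k + 4 ∨ m = k + 5 := by
  revert k; decide

theorem fin6_add (k : Fin 6) : k + 1 + 1 = k + 2 ∧ k + 2 + 1 = k + 3 ∧ k + 3 + 1 = k + 4 ∧
    k + 4 + 1 = k + 5 ∧ k + 5 + 1 = k := by
  revert k; decide

theorem f11 (k : Fin 6) : k + 1 + 1 = k + 2 := by revert k; decide
theorem f12 (k : Fin 6) : k + 1 + 2 = k + 3 := by revert k; decide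
theorem f13 (k : Fin 6) : k + 1 + 3 = k + 4 := by revert k; decide
theorem f21 (k : Fin 6) : k + 2 + 1 = k + 3 := by revert k; decide
theorem f22 (k : Fin 6) : k + 2 + 2 = k + 4 := by revert k; decide
theorem f23 (k : Fin 6) : k + 2 + 3 = k + 5 := by revert k; decide
theorem ne1 (k : Fin 6) : k + 1 ≠ k := by revert k; decide
theorem ne5 (k : Fin 6) : k + 5 ≠ k := by revert k; decide
theorem dir4 (k : Fin 6) : dir k + dir (k + 4) = dir (k + 5) := by revert k; decide
theorem dir5 (k : Fin 6) : dir (k + 5) + dir (k + 5 + 1) = dir k + dir (k + 5) := by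
  revert k; decide

variable {D : Finset (ℤ × ℤ)} {L R : Set (ℤ × ℤ)}

theorem crossing_increasing (D : Finset (ℤ × ℤ)) (L R : Set (ℤ × ℤ)) :
    Increasing (Crossing D L R) := by
  rintro ω ω' hle ⟨u, v, hu, hv, hou, hr⟩
  refine ⟨u, v, hu, hv, hle u hou, ?_⟩
  refine Relation.ReflTransGen.mono ?_ u v hr
  intro a b hab
  exact ⟨hab.1, hle a hab.2.1, hle b hab.2.2⟩

theorem openStep_symm {ω : {x // x ∈ D} → Bool} {u v : {x // x ∈ D}}
    (h : OpenStep D ω u v) : OpenStep D ω v u := by
  obtain ⟨⟨k, hk⟩, h1, h2⟩ := h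
  refine ⟨⟨k + 3, ?_⟩, h2, h1⟩
  rw [hk, add_assoc, dir_opp, add_zero]

theorem reach_symm {ω : {x // x ∈ D} → Bool} {u v : {x // x ∈ D}}
    (h : Relation.ReflTransGen (OpenStep D ω) u v) :
    Relation.ReflTransGen (OpenStep D ω) v u := by
  induction h with
  | refl => exact Relation.ReflTransGen.refl
  | tail _ hbc ih => exact Relation.ReflTransGen.head (openStep_symm hbc) ih

/-- If the open neighbours of `j` are connected to each other without `j`, then `j` is not
pivotal. -/
theorem not_pivotal_of_connected {j : {x // x ∈ D}} (hjL : j.1 ∉ L) (hjR : j.1 ∉ R)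
    {ω : {x // x ∈ D} → Bool}
    (H : ∀ u v : {x // x ∈ D}, (∃ k : Fin 6, u.1 = j.1 + dir k) → (∃ k : Fin 6, v.1 = j.1 + dir k) →
      ω u = true → ω v = true →
      Relation.ReflTransGen (OpenStep D (Function.update ω j false)) u v) :
    ¬ Pivotal (Crossing D L R) j ω := by
  rw [(crossing_increasing D L R).pivotal true]
  rintro ⟨h1, h0⟩
  simp only [Bool.not_true, decide_eq_false_iff_not, decide_eq_true_eq] at h1 h0
  apply h0
  obtain ⟨u, v, hu, hv, hou, hr⟩ := h1
  have huj : u ≠ j := by rintro rfl; exact hjL hu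
  have hvj : v ≠ j := by rintro rfl; exact hjR hv
  have key : ∀ w, Relation.ReflTransGen (OpenStep D (Function.update ω j true)) u w →
      (w ≠ j → Relation.ReflTransGen (OpenStep D (Function.update ω j false)) u w) ∧
      (w = j → ∃ a : {x // x ∈ D}, (∃ k : Fin 6, a.1 = j.1 + dir k) ∧ ω a = true ∧
        Relation.ReflTransGen (OpenStep D (Function.update ω j false)) u a) := by
    intro w hw
    induction hw with
    | refl => exact ⟨fun _ => Relation.ReflTransGen.refl, fun h => absurd h huj⟩
    | @tail w w' _ hstep ih =>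
      obtain ⟨⟨k, hk⟩, hw1, hw2⟩ := hstep
      by_cases hwj : w = j
      · obtain ⟨a, ha, hoa, hra⟩ := ih.2 hwj
        have hw'j : w' ≠ j := by
          rintro rfl
          rw [hwj] at hk
          exact dir_ne k (by simpa using hk.symm)
        refine ⟨fun _ => ?_, fun h => absurd h hw'j⟩
        rw [Function.update_of_ne hw'j] at hw2
        exact hra.trans (H a w' ha ⟨k, by rw [hk, hwj]⟩ hoa hw2)
      · rw [Function.update_of_ne hwj] at hw1
        by_cases hw'j : w' = j
        · refine ⟨fun h => absurd hw'j h, fun _ => ⟨w, ⟨k + 3, ?_⟩, hw1, ih.1 hwj⟩⟩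
          rw [← hw'j, hk, add_assoc, dir_opp, add_zero]
        · refine ⟨fun _ => (ih.1 hwj).tail ?_, fun h => absurd h hw'j⟩
          rw [Function.update_of_ne hw'j] at hw2
          refine ⟨⟨k, hk⟩, ?_, ?_⟩
          · rw [Function.update_of_ne hwj]; exact hw1
          · rw [Function.update_of_ne hw'j]; exact hw2
  refine ⟨u, v, hu, hv, ?_, (key v hr).1 hvj⟩
  rw [Function.update_of_ne huj] at hou ⊢
  exact hou

/-- Four consecutive neighbours of the same colour make `j` irrelevant. -/
theorem not_pivotal_of_four {j : {x // x ∈ D}} (hjL : j.1 ∉ L) (hjR : j.1 ∉ R)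
    {ω : {x // x ∈ D} → Bool} (k : Fin 6) (b : Bool) (a : Fin 4 → {x // x ∈ D})
    (h0 : (a 0).1 = j.1 + dir k) (h1 : (a 1).1 = j.1 + dir (k + 1))
    (h2 : (a 2).1 = j.1 + dir (k + 2)) (h3 : (a 3).1 = j.1 + dir (k + 3))
    (hb : ∀ i, ω (a i) = b) : ¬ Pivotal (Crossing D L R) j ω := by
  apply not_pivotal_of_connected hjL hjR
  -- steps between consecutive neighbours
  have hne : ∀ (u : {x // x ∈ D}) (m : Fin 6), u.1 = j.1 + dir m → u ≠ j := by
    rintro u m hu rfl
    exact dir_ne m (by simpa using hu.symm)
  have hstep : ∀ (u v : {x // x ∈ D}) (m : Fin 6), u.1 = j.1 + dir m → v.1 = j.1 + dir (m + 1) →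
      ω u = true → ω v = true → OpenStep D (Function.update ω j false) u v := by
    intro u v m hu hv hou hov
    refine ⟨⟨m + 2, ?_⟩, ?_, ?_⟩
    · rw [hu, hv, add_assoc, dir_up]
    · rw [Function.update_of_ne (hne u m hu)]; exact hou
    · rw [Function.update_of_ne (hne v _ hv)]; exact hov
  have hcase : ∀ m : Fin 6, m = k ∨ m = k + 1 ∨ m = k + 2 ∨ m = k + 3 ∨ m = k + 4 ∨ m = k + 5 :=
    fin6_cases k
  have hk1 : k + 1 + 1 = k + 2 := (fin6_add k).1
  have hk2 : k + 2 + 1 = k + 3 := (fin6_add k).2.1
  have hk3 : k + 3 + 1 = k + 4 := (fin6_add k).2.2.1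
  have hk4 : k + 4 + 1 = k + 5 := (fin6_add k).2.2.2.1
  have hk5 : k + 5 + 1 = k := (fin6_add k).2.2.2.2
  cases b with
  | true =>
    have e01 := hstep (a 0) (a 1) k h0 h1 (hb 0) (hb 1)
    have e12 := hstep (a 1) (a 2) (k + 1) h1 (by rw [hk1]; exact h2) (hb 1) (hb 2)
    have e23 := hstep (a 2) (a 3) (k + 2) h2 (by rw [hk2]; exact h3) (hb 2) (hb 3)
    have r1 : Relation.ReflTransGen (OpenStep D (Function.update ω j false)) (a 0) (a 1) :=
      Relation.ReflTransGen.single e01
    have r2 := r1.tail e12
    have r3 := r2.tail e23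
    have main : ∀ (u : {x // x ∈ D}), (∃ m : Fin 6, u.1 = j.1 + dir m) → ω u = true →
        Relation.ReflTransGen (OpenStep D (Function.update ω j false)) (a 0) u := by
      rintro u ⟨m, hm⟩ hu
      rcases hcase m with rfl | rfl | rfl | rfl | rfl | rfl
      · have : u = a 0 := Subtype.ext (by rw [hm, h0])
        rw [this]
      · have : u = a 1 := Subtype.ext (by rw [hm, h1])
        rw [this]; exact r1
      · have : u = a 2 := Subtype.ext (by rw [hm, h2])
        rw [this]; exact r2
      · have : u = a 3 := Subtype.ext (by rw [hm, h3])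
        rw [this]; exact r3
      · exact r3.tail (hstep (a 3) u (k + 3) h3 (by rw [hk3]; exact hm) (hb 3) hu)
      · exact Relation.ReflTransGen.single
          (openStep_symm (hstep u (a 0) (k + 5) hm (by rw [hk5]; exact h0) hu (hb 0)))
    intro u v hu hv hou hov
    exact (reach_symm (main u hu hou)).trans (main v hv hov)
  | false =>
    have main : ∀ (u : {x // x ∈ D}) (m : Fin 6), u.1 = j.1 + dir m → ω u = true →
        m = k + 4 ∨ m = k + 5 := by
      rintro u m hm hu
      rcases hcase m with rfl | rfl | rfl | rfl | rfl | rfl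
      · exfalso
        have : u = a 0 := Subtype.ext (by rw [hm, h0])
        rw [this, hb 0] at hu; simp at hu
      · exfalso
        have : u = a 1 := Subtype.ext (by rw [hm, h1])
        rw [this, hb 1] at hu; simp at hu
      · exfalso
        have : u = a 2 := Subtype.ext (by rw [hm, h2])
        rw [this, hb 2] at hu; simp at hu
      · exfalso
        have : u = a 3 := Subtype.ext (by rw [hm, h3])
        rw [this, hb 3] at hu; simp at hu
      · exact Or.inl rfl
      · exact Or.inr rfl
    rintro u v ⟨m, hm⟩ ⟨m', hm'⟩ hou hov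
    rcases main u m hm hou with rfl | rfl <;> rcases main v m' hm' hov with rfl | rfl
    · have : u = v := Subtype.ext (by rw [hm, hm'])
      rw [this]
    · exact Relation.ReflTransGen.single
        (hstep u v (k + 4) hm (by rw [hk4]; exact hm') hou hov)
    · exact Relation.ReflTransGen.single
        (openStep_symm (hstep v u (k + 4) hm' (by rw [hk4]; exact hm) hov hou))
    · have : u = v := Subtype.ext (by rw [hm, hm'])
      rw [this]

/-- Sites all of whose sites at distance at most two lie in `D`, and whose neighbours (and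
the site itself) avoid `L` and `R`. -/
structure Inner (D : Finset (ℤ × ℤ)) (L R : Set (ℤ × ℤ)) (v : ℤ × ℤ) : Prop where
  mem0 : v ∈ D
  mem1 : ∀ k, v + dir k ∈ D
  mem2 : ∀ k, v + dir k + dir (k + 1) ∈ D
  nL0 : v ∉ L
  nR0 : v ∉ R
  nL1 : ∀ k, v + dir k ∉ L
  nR1 : ∀ k, v + dir k ∉ R

/-- The sites of the star and the six sites between its rays. -/
def site (v : ℤ × ℤ) : Option (Fin 6 ⊕ Fin 6) → ℤ × ℤ
  | none => v
  | some (Sum.inl k) => v + dir k
  | some (Sum.inr k) => v + dir k + dir (k + 1)

def Inner.site {v : ℤ × ℤ} (hv : Inner D L R v) (t : Option (Fin 6 ⊕ Fin 6)) :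
    {x // x ∈ D} :=
  ⟨MPS.site v t, by
    rcases t with _ | k | k
    · exact hv.mem0
    · exact hv.mem1 k
    · exact hv.mem2 k⟩

theorem site_injective (v : ℤ × ℤ) : Function.Injective (site v) := by
  have h0 : ∀ t, site v t = v + site 0 t := by
    rintro (_ | k | k)
    · simp [site]
    · simp [site]
    · simp [site, add_assoc]
  have h1 : Function.Injective (site 0) := by
    intro a b; revert a b; decide
  intro a b hab
  rw [h0, h0 b] at hab
  exact h1 (by simpa using hab)

/-- The patterns used in the star argument. -/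
def Pat (g : Option (Fin 6 ⊕ Fin 6) → Bool) : Prop :=
  ∃ b : Bool, g none = b ∧ (∀ k, g (some (Sum.inl k)) = b) ∧
    ∀ k : Fin 6, g (some (Sum.inr k)) = b ∨ g (some (Sum.inr (k + 5))) = b

theorem exists_unqueried {v : ℤ × ℤ} (hv : Inner D L R v) {ω : {x // x ∈ D} → Bool}
    {h : List ({x // x ∈ D} × Bool)} (hg : Good (Crossing D L R) ω h)
    (hp : Pat fun t => ω (hv.site t)) : ∃ t, hv.site t ∉ h.map Prod.fst := by
  by_contra hcon
  push Not at hcon
  obtain ⟨b, hb0, hb1, hb2⟩ := hp
  have hinj : Function.Injective hv.site := by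
    intro s t hst
    exact site_injective v (congrArg Subtype.val hst)
  set S : Finset {x // x ∈ D} := insert (hv.site none)
    (Finset.univ.image fun k : Fin 6 => hv.site (some (Sum.inl k))) with hSdef
  have hmemk : ∀ k : Fin 6, hv.site (some (Sum.inl k)) ∈ S := by
    intro k
    rw [hSdef, Finset.mem_insert]
    exact Or.inr (Finset.mem_image_of_mem _ (Finset.mem_univ _))
  have hmem0 : hv.site none ∈ S := by
    rw [hSdef]; exact Finset.mem_insert_self _ _
  have hScard : 2 ≤ S.card := by
    have : ({hv.site none, hv.site (some (Sum.inl 0))} : Finset {x // x ∈ D}) ⊆ S := by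
      intro x hx
      rw [Finset.mem_insert, Finset.mem_singleton] at hx
      rcases hx with rfl | rfl
      · exact hmem0
      · exact hmemk 0
    have h2 := Finset.card_le_card this
    rw [Finset.card_pair] at h2
    · exact h2
    · intro he
      have := hinj he
      simp at this
  have hSb : ∀ i ∈ S, ω i = b := by
    intro i hi
    rw [hSdef, Finset.mem_insert, Finset.mem_image] at hi
    rcases hi with rfl | ⟨k, -, rfl⟩
    · exact hb0
    · exact hb1 k
  have hloc : ∀ j ∈ S, (∀ ω' : {x // x ∈ D} → Bool, (∀ i ∈ S, i ≠ j → ω' i = b) →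
      ¬ Pivotal (Crossing D L R) j ω') ∨
      ∃ x ∈ h.map Prod.fst, x ≠ j ∧ ω x = b ∧
        ∀ ω' : {x // x ∈ D} → Bool, (∀ i ∈ S, i ≠ j → ω' i = b) → ω' x = b →
          ¬ Pivotal (Crossing D L R) j ω' := by
    intro j hj
    rw [hSdef, Finset.mem_insert, Finset.mem_image] at hj
    rcases hj with rfl | ⟨k, -, rfl⟩
    · left
      intro ω' hω'
      refine not_pivotal_of_four (j := hv.site none) hv.nL0 hv.nR0 0 b
        (fun i => hv.site (some (Sum.inl (Fin.castLE (by norm_num) i)))) ?_ ?_ ?_ ?_ ?_
      · rfl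
      · rfl
      · rfl
      · rfl
      · intro i
        refine hω' _ (hmemk _) ?_
        intro he
        have := hinj he
        simp at this
    · right
      have hne0 : ∀ ω' : {x // x ∈ D} → Bool,
          (∀ i ∈ S, i ≠ hv.site (some (Sum.inl k)) → ω' i = b) → ω' (hv.site none) = b := by
        intro ω' hω'
        refine hω' _ hmem0 ?_
        intro he
        have := hinj he
        simp at this
      have hne1 : ∀ (m : Fin 6), m ≠ k → ∀ ω' : {x // x ∈ D} → Bool,
          (∀ i ∈ S, i ≠ hv.site (some (Sum.inl k)) → ω' i = b) →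
          ω' (hv.site (some (Sum.inl m))) = b := by
        intro m hmk ω' hω'
        refine hω' _ (hmemk m) ?_
        intro he
        have := hinj he
        simp at this
        exact hmk this
      have g1 : dir k + dir (k + 2) = dir (k + 1) := dir_up k
      have g2 : dir k + dir (k + 3) = 0 := dir_opp k
      have g3 : dir k + dir (k + 4) = dir (k + 5) := dir4 k
      have g4 : dir (k + 5) + dir (k + 5 + 1) = dir k + dir (k + 5) := dir5 k
      rcases hb2 k with hE | hE
      · refine ⟨hv.site (some (Sum.inr k)), hcon _, ?_, hE, ?_⟩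
        · intro he
          have := hinj he
          simp at this
        · intro ω' hω' hx
          refine not_pivotal_of_four (j := hv.site (some (Sum.inl k))) (hv.nL1 k) (hv.nR1 k)
            (k + 1) b ![hv.site (some (Sum.inr k)), hv.site (some (Sum.inl (k + 1))),
              hv.site none, hv.site (some (Sum.inl (k + 5)))] ?_ ?_ ?_ ?_ ?_
          · rfl
          · change v + dir (k + 1) = v + dir k + dir (k + 1 + 1)
            rw [f11, add_assoc, g1]
          · change v = v + dir k + dir (k + 1 + 2)
            rw [f12, add_assoc, g2, add_zero]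
          · change v + dir (k + 5) = v + dir k + dir (k + 1 + 3)
            rw [f13, add_assoc, g3]
          · intro i
            fin_cases i
            · exact hx
            · exact hne1 (k + 1) (ne1 k) ω' hω'
            · exact hne0 ω' hω'
            · exact hne1 (k + 5) (ne5 k) ω' hω'
      · refine ⟨hv.site (some (Sum.inr (k + 5))), hcon _, ?_, hE, ?_⟩
        · intro he
          have := hinj he
          simp at this
        · intro ω' hω' hx
          refine not_pivotal_of_four (j := hv.site (some (Sum.inl k))) (hv.nL1 k) (hv.nR1 k)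
            (k + 2) b ![hv.site (some (Sum.inl (k + 1))),
              hv.site none, hv.site (some (Sum.inl (k + 5))),
              hv.site (some (Sum.inr (k + 5)))] ?_ ?_ ?_ ?_ ?_
          · change v + dir (k + 1) = v + dir k + dir (k + 2)
            rw [add_assoc, g1]
          · change v = v + dir k + dir (k + 2 + 1)
            rw [f21, add_assoc, g2, add_zero]
          · change v + dir (k + 5) = v + dir k + dir (k + 2 + 2)
            rw [f22, add_assoc, g3]
          · change v + dir (k + 5) + dir (k + 5 + 1) = v + dir k + dir (k + 2 + 3)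
            rw [f23, add_assoc v, add_assoc v, g4]
          · intro i
            fin_cases i
            · exact hne1 (k + 1) (ne1 k) ω' hω'
            · exact hne0 ω' hω'
            · exact hne1 (k + 5) (ne5 k) ω' hω'
            · exact hx
  obtain ⟨i, hiS, hi⟩ := star_argument (crossing_increasing D L R) hg S hScard b hSb hloc
  rw [hSdef, Finset.mem_insert, Finset.mem_image] at hiS
  rcases hiS with rfl | ⟨k, -, rfl⟩
  · exact hi (hcon _)
  · exact hi (hcon _)

end Pool.Agent.Helper70.MPS
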