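import Pool.Agent.Helper70.MPS.Basic

/-!
Histories produced by a most-pivotal-site algorithm.
-/

namespace Pool.Agent.Helper70.MPS

open Classical

variable {V : Type} [Fintype V] [DecidableEq V]

/-- Histories that the algorithm can produce when the configuration is `ω`. -/
structure Good (f : (V → Bool) → Prop) (ω : V → Bool) (h : List (V × Bool)) : Prop where
  states : ∀ p ∈ h, p.2 = ω p.1
  nodup : (h.map Prod.fst).Nodup
  greedy : ∀ (p s : List (V × Bool)) (j : V) (b : Bool), h = p ++ (j, b) :: s → p ≠ [] →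
    ¬ Determined f p ∧ ∀ i, i ∉ p.map Prod.fst → condPivotal f p i ≤ condPivotal f p j

theorem good_singleton (f : (V → Bool) → Prop) (ω : V → Bool) (j : V) :
    Good f ω [(j, ω j)] := by
  refine ⟨?_, ?_, ?_⟩
  · intro p hp
    simp at hp
    subst hp
    rfl
  · simp
  · intro p s j' b' he hp
    exfalso
    have := congrArg List.length he
    simp at this
    exact hp (List.length_eq_zero_iff.1 (by omega))

theorem good_append {f : (V → Bool) → Prop} {ω : V → Bool} {h : List (V × Bool)}
    (hg : Good f ω h) (hd : ¬ Determined f h) {j : V} (hj : j ∉ h.map Prod.fst)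
    (hmax : ∀ i, i ∉ h.map Prod.fst → condPivotal f h i ≤ condPivotal f h j) :
    Good f ω (h ++ [(j, ω j)]) := by
  refine ⟨?_, ?_, ?_⟩
  · intro p hp
    rw [List.mem_append, List.mem_singleton] at hp
    rcases hp with hp | hp
    · exact hg.states p hp
    · subst hp; rfl
  · rw [List.map_append, List.map_singleton, List.nodup_append]
    refine ⟨hg.nodup, by simp, ?_⟩
    intro a ha b hb
    simp at hb
    subst hb
    rintro rfl
    exact hj ha
  · intro p s j' b' he hp
    rcases List.eq_nil_or_concat s with rfl | ⟨s', x, rfl⟩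
    · have := List.append_inj' he (by simp)
      obtain ⟨h1, h2⟩ := this
      simp at h2
      obtain ⟨rfl, rfl⟩ := h2
      subst h1
      exact ⟨hd, hmax⟩
    · have he' : h ++ [(j, ω j)] = (p ++ (j', b') :: s') ++ [x] := by
        rw [he]; simp
      have := List.append_inj' he' (by simp)
      exact hg.greedy p s' j' b' this.1 hp

theorem law_support {f : (V → Bool) → Prop} (A : MostPivotal f) (ω : V → Bool) (t : ℕ) :
    ∀ h ∈ (law A ω t).support, h ≠ [] ∧ Good f ω h := by
  induction t with
  | zero =>
    intro h hh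
    simp only [law] at hh
    rw [PMF.mem_support_bind_iff] at hh
    obtain ⟨j, -, hj⟩ := hh
    rw [PMF.mem_support_pure_iff] at hj
    subst hj
    exact ⟨by simp, good_singleton f ω j⟩
  | succ t ih =>
    intro h hh
    simp only [law] at hh
    rw [PMF.mem_support_bind_iff] at hh
    obtain ⟨h', hh', hj⟩ := hh
    obtain ⟨hne, hg⟩ := ih h' hh'
    by_cases hd : Determined f h'
    · simp only [hd, if_true] at hj
      rw [PMF.mem_support_pure_iff] at hj
      subst hj
      exact ⟨hne, hg⟩
    · simp only [hd, if_false] at hj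
      rw [PMF.mem_support_bind_iff] at hj
      obtain ⟨j, hj, hjp⟩ := hj
      rw [PMF.mem_support_pure_iff] at hjp
      subst hjp
      obtain ⟨h1, h2⟩ := A.next_spec h' hne hd j hj
      exact ⟨by simp, good_append hg hd h1 h2⟩

theorem Good.agrees {f : (V → Bool) → Prop} {ω : V → Bool} {h : List (V × Bool)}
    (hg : Good f ω h) {p s : List (V × Bool)} (he : h = p ++ s) : Agrees p ω := by
  intro q hq
  exact (hg.states q (by rw [he]; exact List.mem_append_left _ hq)).symm

theorem Good.exists_piv {f : (V → Bool) → Prop} {ω : V → Bool} {h : List (V × Bool)}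
    (hg : Good f ω h) {p s : List (V × Bool)} {j : V} {b : Bool} (he : h = p ++ (j, b) :: s)
    (hp : p ≠ []) : ∃ ω', Agrees p ω' ∧ Pivotal f j ω' := by
  obtain ⟨hd, hmax⟩ := hg.greedy p s j b he hp
  obtain ⟨i, hi, ω', hω', hpiv⟩ := exists_pivotal hd
  have := hmax i hi
  rw [condPivotal_le_iff ⟨ω, hg.agrees he⟩] at this
  have hpos : 0 < (Finset.univ.filter fun ω : V → Bool => Agrees p ω ∧ Pivotal f i ω).card :=
    Finset.card_pos.2 ⟨ω', by simp [hω', hpiv]⟩
  have hpos' := lt_of_lt_of_le hpos this
  obtain ⟨ω'', h''⟩ := Finset.card_pos.1 hpos'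
  rw [Finset.mem_filter] at h''
  exact ⟨ω'', h''.2⟩

/-- A site that is irrelevant after the query of `j` is not queried later. -/
theorem Good.not_later {f : (V → Bool) → Prop} {ω : V → Bool} {h : List (V × Bool)}
    (hg : Good f ω h) {p s : List (V × Bool)} {j x : V} {b : Bool}
    (he : h = p ++ (j, b) :: s)
    (hdead : ∀ ω', Agrees p ω' → ω' j = b → ¬ Pivotal f x ω') : x ∉ s.map Prod.fst := by
  intro hx
  rw [List.mem_map] at hx
  obtain ⟨⟨x', c⟩, hq, rfl⟩ := hx
  obtain ⟨s1, s2, rfl⟩ := List.append_of_mem hq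
  have he' : h = (p ++ (j, b) :: s1) ++ (x', c) :: s2 := by rw [he]; simp
  obtain ⟨ω', h1, h2⟩ := hg.exists_piv he' (by simp)
  refine hdead ω' (fun q hq => h1 q (by simp [hq])) (h1 (j, b) (by simp)) h2

theorem Good.fst_notMem {f : (V → Bool) → Prop} {ω : V → Bool} {h : List (V × Bool)}
    (hg : Good f ω h) {p s : List (V × Bool)} {j : V} {b : Bool} (he : h = p ++ (j, b) :: s) :
    j ∉ p.map Prod.fst := by
  have := hg.nodup
  rw [he, List.map_append, List.nodup_append] at this
  intro hj
  exact this.2.2 j hj j (by simp) rfl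

/-- The last queried site of a set. -/
theorem exists_last (S : Finset V) (hS : S.Nonempty) :
    ∀ h : List (V × Bool), (∀ i ∈ S, i ∈ h.map Prod.fst) →
      ∃ (p s : List (V × Bool)) (j : V) (b : Bool), h = p ++ (j, b) :: s ∧ j ∈ S ∧
        ∀ i ∈ S, i ≠ j → i ∈ p.map Prod.fst := by
  intro h
  induction h using List.reverseRecOn with
  | nil =>
    intro hh
    obtain ⟨i, hi⟩ := hS
    simpa using hh i hi
  | append_singleton h a ih =>
    intro hh
    by_cases hall : ∀ i ∈ S, i ∈ h.map Prod.fst
    · obtain ⟨p, s, j, b, he, hj, hp⟩ := ih hall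
      exact ⟨p, s ++ [a], j, b, by rw [he]; simp, hj, hp⟩
    · push Not at hall
      obtain ⟨i, hi, hih⟩ := hall
      have hia : i = a.1 := by
        have := hh i hi
        rw [List.map_append, List.mem_append] at this
        rcases this with h1 | h1
        · exact absurd h1 hih
        · simpa using h1
      refine ⟨h, [], a.1, a.2, by simp, hia ▸ hi, ?_⟩
      intro i' hi' hne
      have := hh i' hi'
      rw [List.map_append, List.mem_append] at this
      rcases this with h1 | h1
      · exact h1
      · exfalso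
        apply hne
        simpa using h1

/-- The abstract form of the star argument. -/
theorem star_argument {f : (V → Bool) → Prop} (hf : Increasing f) {ω : V → Bool}
    {h : List (V × Bool)} (hg : Good f ω h) (S : Finset V) (hS : 2 ≤ S.card) (b : Bool)
    (hb : ∀ i ∈ S, ω i = b)
    (hloc : ∀ j ∈ S, (∀ ω' : V → Bool, (∀ i ∈ S, i ≠ j → ω' i = b) → ¬ Pivotal f j ω') ∨
      ∃ x ∈ h.map Prod.fst, x ≠ j ∧ ω x = b ∧
        ∀ ω' : V → Bool, (∀ i ∈ S, i ≠ j → ω' i = b) → ω' x = b → ¬ Pivotal f j ω') :
    ∃ i ∈ S, i ∉ h.map Prod.fst := by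
  by_contra hcon
  push Not at hcon
  have hne : S.Nonempty := Finset.card_pos.1 (by omega)
  obtain ⟨p, s, j, c, he, hj, hp⟩ := exists_last S hne h hcon
  have hpne : p ≠ [] := by
    rintro rfl
    have : S ⊆ {j} := by
      intro i hi
      by_contra hij
      rw [Finset.mem_singleton] at hij
      simpa using hp i hi hij
    have := Finset.card_le_card this
    simp at this
    omega
  have hc : c = b := by
    have := hg.states (j, c) (by rw [he]; simp)
    simp only at this
    rw [this, hb j hj]
  have hkn : ∀ ω', Agrees p ω' → ∀ i ∈ S, i ≠ j → ω' i = b := by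
    intro ω' hω' i hi hij
    have := hp i hi hij
    rw [List.mem_map] at this
    obtain ⟨q, hq, rfl⟩ := this
    rw [hω' q hq, hg.states q (by rw [he]; simp [hq]), hb _ hi]
  obtain ⟨ω₁, hω₁, hpiv⟩ := hg.exists_piv he hpne
  rcases hloc j hj with h1 | ⟨x, hx, hxj, hωx, h1⟩
  · exact h1 ω₁ (hkn ω₁ hω₁) hpiv
  · by_cases hxp : x ∈ p.map Prod.fst
    · rw [List.mem_map] at hxp
      obtain ⟨q, hq, rfl⟩ := hxp
      refine h1 ω₁ (hkn ω₁ hω₁) ?_ hpiv
      rw [hω₁ q hq, hg.states q (by rw [he]; simp [hq]), hωx]
    · have hjp := hg.fst_notMem he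
      have hmax := (hg.greedy p s j c he hpne).2 x hxp
      have hdead := exchange hf b (Ne.symm hxj) hjp hxp
        (fun ω' hω' hx' => h1 ω' (hkn ω' hω') hx') hmax
      have hlater : x ∉ s.map Prod.fst := by
        refine hg.not_later he ?_
        intro ω' hω' hj'
        exact hdead ω' hω' (by rw [hj', hc])
      rw [he, List.map_append, List.map_cons, List.mem_append, List.mem_cons] at hx
      rcases hx with hx | hx | hx
      · exact hxp hx
      · exact hxj hx
      · exact hlater hx

end Pool.Agent.Helper70.MPS
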